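import Pool.Agent.Q129.Transition

set_option autoImplicit false

/-!
For every `q ≥ 3` some Hamming-distance graph `H_q(n, d)` with `2 ≤ d ≤ n` has a proper colouring
with `q ^ (n - d + 1)` colours that has a transition edge.
-/

namespace Pool.Agent.Results.MP_3553b5_co.HasTransition

open Q129.Transition

theorem result : ∀ q : ℕ, 3 ≤ q → ∃ n d : ℕ, 2 ≤ d ∧ d ≤ n ∧
    ∃ K : (Fin n → ZMod q) → Fin (q ^ (n - d + 1)), Proper (H q n d) K ∧
      ∃ x y, TransitionEdge (H q n d) K x y :=
  fun q hq => Q129.Transition.main q (by omega)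

end Pool.Agent.Results.MP_3553b5_co.HasTransition
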